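import Pool.Agent.TH612.GS.Stm3

set_option autoImplicit false

/-!
The twisted integral of a product of shifted zeta functions on a line to the right of `1`.
-/

namespace Pool.Agent.TH445.GF

open Complex Filter Topology MeasureTheory Set
open Pool.Agent.TH612.CF Pool.Agent.TH612.GS
open Pool.Agent.W182.KO hiding ee SS_summable

noncomputable section

lemma cp {n : ℕ} (hn : 0 < n) (z : ℂ) : (n : ℂ) ^ z = Complex.exp ((Real.log n : ℂ) * z) := by
  rw [Complex.cpow_def_of_ne_zero (by exact_mod_cast hn.ne'), Complex.natCast_log]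

/-- an oscillating integral -/
lemma osc {ω : ℝ} (hω : ω ≠ 0) (a b : ℝ) :
    ‖∫ t in a..b, Complex.exp (((ω : ℂ) * I) * t)‖ ≤ 2 / |ω| := by
  have hc : (ω : ℂ) * I ≠ 0 := mul_ne_zero (by exact_mod_cast hω) I_ne_zero
  rw [integral_exp_mul_complex hc, norm_div]
  have h1 : ∀ x : ℝ, ‖Complex.exp ((ω : ℂ) * I * x)‖ = 1 := by
    intro x
    have : (ω : ℂ) * I * x = ((ω * x : ℝ) : ℂ) * I := by push_cast; ring
    rw [this, Complex.norm_exp_ofReal_mul_I]
  have h2 : ‖(ω : ℂ) * I‖ = |ω| := by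
    rw [norm_mul, Complex.norm_I, mul_one, Complex.norm_real, Real.norm_eq_abs]
  rw [h2]
  have h3 : ‖Complex.exp ((ω : ℂ) * I * b) - Complex.exp ((ω : ℂ) * I * a)‖ ≤ 2 := by
    refine (norm_sub_le _ _).trans ?_
    rw [h1, h1]
    norm_num
  exact div_le_div_of_nonneg_right h3 (abs_nonneg _)

/-- the kernel -/
def G (e : ℝ) (n : ℕ) : ℝ := (n : ℝ) ^ (-(1 + e))

lemma G_zero {e : ℝ} (he : 0 < e) : G e 0 = 0 := by
  unfold G
  rw [Nat.cast_zero, Real.zero_rpow (by linarith)]

lemma G_nonneg (e : ℝ) (n : ℕ) : 0 ≤ G e n := Real.rpow_nonneg (Nat.cast_nonneg n) _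

lemma G_summable {e : ℝ} (he : 0 < e) : Summable (G e) :=
  Real.summable_nat_rpow.2 (by linarith)

/-- the elementary inequality -/
lemma elem {e : ℝ} (he : 0 < e) {m n : ℕ} (hm : 0 < m) (hn : 0 < n) (hmn : m ≠ n) :
    G e n * (1 / |Real.log m - Real.log n|) ≤
      (m : ℝ) ^ (2 * e) * (G e n + G e (m - n) + G e (n - m)) := by
  have hm1 : (1 : ℝ) ≤ m := by exact_mod_cast hm
  have hn1 : (1 : ℝ) ≤ n := by exact_mod_cast hn
  have hm0 : (0 : ℝ) < m := by linarith
  have hn0 : (0 : ℝ) < n := by linarith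
  have hme : 1 ≤ (m : ℝ) ^ (2 * e) := Real.one_le_rpow hm1 (by positivity)
  rcases lt_or_gt_of_ne hmn with h | h
  · -- m < n
    have hr : (m : ℝ) < n := by exact_mod_cast h
    have hd : (0 : ℝ) < (n : ℝ) - m := by linarith
    have h1 : ((n : ℝ) - m) / n ≤ |Real.log m - Real.log n| := by
      have h2 := Real.one_sub_inv_le_log_of_pos (div_pos hn0 hm0)
      rw [Real.log_div hn0.ne' hm0.ne', inv_div] at h2
      rw [abs_sub_comm]
      refine le_trans (le_of_eq ?_) (h2.trans (le_abs_self _))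
      field_simp
    have h3 : 1 / |Real.log m - Real.log n| ≤ n / ((n : ℝ) - m) := by
      exact (one_div_le_one_div_of_le (div_pos hd hn0) h1).trans (le_of_eq (one_div_div _ _))
    have h4 : G e n * (n / ((n : ℝ) - m)) ≤ G e (n - m) := by
      unfold G
      rw [Nat.cast_sub h.le]
      have e1 : (n : ℝ) ^ (-(1 + e)) = (n : ℝ) ^ (-e) * (n : ℝ)⁻¹ := by
        rw [← Real.rpow_neg_one, ← Real.rpow_add hn0]
        congr 1; ring
      have e2 : ((n : ℝ) - m) ^ (-(1 + e)) = ((n : ℝ) - m) ^ (-e) * ((n : ℝ) - m)⁻¹ := by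
        rw [← Real.rpow_neg_one, ← Real.rpow_add hd]
        congr 1; ring
      rw [e1, e2]
      have e3 : (n : ℝ) ^ (-e) ≤ ((n : ℝ) - m) ^ (-e) :=
        Real.rpow_le_rpow_of_nonpos hd (by linarith) (by linarith)
      calc (n : ℝ) ^ (-e) * (n : ℝ)⁻¹ * (n / ((n : ℝ) - m))
          = (n : ℝ) ^ (-e) * ((n : ℝ) - m)⁻¹ := by field_simp
        _ ≤ _ := mul_le_mul_of_nonneg_right e3 (by positivity)
    calc G e n * (1 / |Real.log m - Real.log n|) ≤ G e n * (n / ((n : ℝ) - m)) :=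
          mul_le_mul_of_nonneg_left h3 (G_nonneg _ _)
      _ ≤ G e (n - m) := h4
      _ ≤ (m : ℝ) ^ (2 * e) * (G e n + G e (m - n) + G e (n - m)) := by
          have g1 := G_nonneg e n
          have g2 := G_nonneg e (m - n)
          have g3 := G_nonneg e (n - m)
          nlinarith
  · -- n < m
    have hr : (n : ℝ) < m := by exact_mod_cast h
    have hd : (0 : ℝ) < (m : ℝ) - n := by linarith
    have h1 : ((m : ℝ) - n) / m ≤ |Real.log m - Real.log n| := by
      have h2 := Real.one_sub_inv_le_log_of_pos (div_pos hm0 hn0)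
      rw [Real.log_div hm0.ne' hn0.ne', inv_div] at h2
      refine le_trans (le_of_eq ?_) (h2.trans (le_abs_self _))
      field_simp
    have h3 : 1 / |Real.log m - Real.log n| ≤ m / ((m : ℝ) - n) := by
      exact (one_div_le_one_div_of_le (div_pos hd hm0) h1).trans (le_of_eq (one_div_div _ _))
    have h4 : G e n * (m / ((m : ℝ) - n)) ≤ G e n + (m : ℝ) ^ (2 * e) * G e (m - n) := by
      unfold G
      rw [Nat.cast_sub h.le]
      have e1 : (n : ℝ) ^ (-(1 + e)) = (n : ℝ) ^ (-e) * (n : ℝ)⁻¹ := by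
        rw [← Real.rpow_neg_one, ← Real.rpow_add hn0]
        congr 1; ring
      have e2 : ((m : ℝ) - n) ^ (-(1 + e)) = ((m : ℝ) - n) ^ (-e) * ((m : ℝ) - n)⁻¹ := by
        rw [← Real.rpow_neg_one, ← Real.rpow_add hd]
        congr 1; ring
      have e3 : (n : ℝ) ^ (-e) ≤ 1 := Real.rpow_le_one_of_one_le_of_nonpos hn1 (by linarith)
      have e4 : 1 ≤ (m : ℝ) ^ (2 * e) * ((m : ℝ) - n) ^ (-e) := by
        rw [Real.rpow_neg hd.le, ← div_eq_mul_inv, one_le_div (by positivity)]
        calc ((m : ℝ) - n) ^ e ≤ (m : ℝ) ^ e := Real.rpow_le_rpow hd.le (by linarith) he.le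
          _ ≤ (m : ℝ) ^ (2 * e) := Real.rpow_le_rpow_of_exponent_le hm1 (by linarith)
      have e5 : (n : ℝ) ^ (-(1 + e)) * (m / ((m : ℝ) - n)) =
          (n : ℝ) ^ (-(1 + e)) + (n : ℝ) ^ (-e) * ((m : ℝ) - n)⁻¹ := by
        rw [e1]
        field_simp
        ring
      rw [e5, e2]
      have e6 : (n : ℝ) ^ (-e) * ((m : ℝ) - n)⁻¹ ≤
          ((m : ℝ) ^ (2 * e) * ((m : ℝ) - n) ^ (-e)) * ((m : ℝ) - n)⁻¹ :=
        mul_le_mul_of_nonneg_right (e3.trans e4) (by positivity)
      linarith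
    calc G e n * (1 / |Real.log m - Real.log n|) ≤ G e n * (m / ((m : ℝ) - n)) :=
          mul_le_mul_of_nonneg_left h3 (G_nonneg _ _)
      _ ≤ G e n + (m : ℝ) ^ (2 * e) * G e (m - n) := h4
      _ ≤ (m : ℝ) ^ (2 * e) * (G e n + G e (m - n) + G e (n - m)) := by
          have g1 := G_nonneg e n
          have g2 := G_nonneg e (m - n)
          have g3 := G_nonneg e (n - m)
          nlinarith

/-- the sum of the majorant -/
lemma maj {e : ℝ} (he : 0 < e) (m : ℕ) : ∃ S : ℝ, S ≤ 3 * ∑' n, G e n ∧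
    HasSum (fun n => G e n + G e (m - n) + G e (n - m)) S := by
  have h1 := (G_summable he).hasSum
  have h2 : HasSum (fun n => G e (n - m)) (∑' n, G e n) := by
    refine (hasSum_nat_add_iff' m).1 ?_
    have e1 : ∑ i ∈ Finset.range m, G e (i - m) = 0 := by
      refine Finset.sum_eq_zero fun i hi => ?_
      rw [Nat.sub_eq_zero_of_le (Finset.mem_range.1 hi).le, G_zero he]
    rw [e1, sub_zero]
    simpa using h1
  have h3 : HasSum (fun n => G e (m - n)) (∑ n ∈ Finset.range m, G e (m - n)) := by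
    refine hasSum_sum_of_ne_finset_zero fun n hn => ?_
    rw [Finset.mem_range, not_lt] at hn
    rw [Nat.sub_eq_zero_of_le hn, G_zero he]
  have h4 : ∑ n ∈ Finset.range m, G e (m - n) ≤ ∑' n, G e n := by
    have h5 : ∑ n ∈ Finset.range m, G e (m - n) =
        ∑ j ∈ (Finset.range m).image (fun n => m - n), G e j := by
      rw [Finset.sum_image]
      intro x hx y hy hxy
      have hx' := Finset.mem_range.1 (Finset.mem_coe.1 hx)
      have hy' := Finset.mem_range.1 (Finset.mem_coe.1 hy)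
      simp only at hxy
      omega
    rw [h5]
    exact (G_summable he).sum_le_tsum _ fun i _ => G_nonneg e i
  exact ⟨_, by linarith, (h1.add h3).add h2⟩

/-- the terms of the twisted integrand -/
lemma term_eq (η : ℝ) (c : ℂ) {m n : ℕ} (hm : 0 < m) (hn : 0 < n) (t : ℝ) :
    c / (n : ℂ) ^ (1 + η + I * t : ℂ) * (m : ℂ) ^ (1 / 2 + η + I * t : ℂ) =
      (c * ((((n : ℝ) ^ (-(1 + η)) * (m : ℝ) ^ (1 / 2 + η) : ℝ)) : ℂ)) *
        Complex.exp ((((Real.log m - Real.log n : ℝ) : ℂ) * I) * t) := by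
  have hn0 : (0 : ℝ) < n := by exact_mod_cast hn
  have hm0 : (0 : ℝ) < m := by exact_mod_cast hm
  rw [div_eq_mul_inv, ← Complex.cpow_neg, cp hn, cp hm, Real.rpow_def_of_pos hn0,
    Real.rpow_def_of_pos hm0, ← Real.exp_add, Complex.ofReal_exp, mul_assoc, mul_assoc,
    ← Complex.exp_add, ← Complex.exp_add]
  congr 2
  push_cast
  ring

theorem t_DS : S_DS := by
  intro k η hη hη1
  obtain ⟨D, hD0, hD⟩ := tau_ptw k (half_pos hη)
  set e : ℝ := η / 2 with he
  have he0 : 0 < e := half_pos hη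
  set Z : ℝ := ∑' n, G e n with hZ
  have hZ0 : 0 ≤ Z := tsum_nonneg fun n => G_nonneg e n
  refine ⟨2 * D * (3 * Z) + 1, by positivity, ?_⟩
  intro α a b m hab hm
  have hm0 : (0 : ℝ) < m := by exact_mod_cast hm
  have hm1 : (1 : ℝ) ≤ m := by exact_mod_cast hm
  have hfun : (fun j => -(I * (α j : ℂ))) = fun j => -((α j : ℂ) * I) := by
    funext j; ring
  rw [hfun]
  set T : ℕ → ℂ := tau (fun j => -((α j : ℂ) * I)) with hT
  have hTn : ∀ n, ‖T n‖ ≤ D * (n : ℝ) ^ e := fun n => hD α n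
  -- the terms
  let F : ℕ → ℝ → ℂ := fun n t => LSeries.term T (1 + η + I * t : ℂ) n *
    (m : ℂ) ^ (1 / 2 + η + I * t : ℂ)
  have hF0 : ∀ t, F 0 t = 0 := by
    intro t
    simp [F]
  have hFn : ∀ n, 0 < n → ∀ t, F n t =
      (T n * ((((n : ℝ) ^ (-(1 + η)) * (m : ℝ) ^ (1 / 2 + η) : ℝ)) : ℂ)) *
        Complex.exp ((((Real.log m - Real.log n : ℝ) : ℂ) * I) * t) := by
    intro n hn t
    simp only [F]
    rw [LSeries.term_of_ne_zero hn.ne', term_eq η _ hm hn t]
  have hcoef : ∀ n, 0 < n → ‖T n * ((((n : ℝ) ^ (-(1 + η)) * (m : ℝ) ^ (1 / 2 + η) : ℝ)) : ℂ)‖ ≤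
      D * (m : ℝ) ^ (1 / 2 + η) * G e n := by
    intro n hn
    have hn0 : (0 : ℝ) < n := by exact_mod_cast hn
    rw [norm_mul, Complex.norm_real, Real.norm_eq_abs, abs_of_nonneg (by positivity)]
    have e1 : G e n = (n : ℝ) ^ e * (n : ℝ) ^ (-(1 + η)) := by
      unfold G
      rw [← Real.rpow_add hn0]
      congr 1
      rw [he]; ring
    rw [e1]
    calc ‖T n‖ * ((n : ℝ) ^ (-(1 + η)) * (m : ℝ) ^ (1 / 2 + η))
        ≤ (D * (n : ℝ) ^ e) * ((n : ℝ) ^ (-(1 + η)) * (m : ℝ) ^ (1 / 2 + η)) :=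
          mul_le_mul_of_nonneg_right (hTn n) (by positivity)
      _ = _ := by ring
  have hexp : ∀ (ω t : ℝ), ‖Complex.exp (((ω : ℂ) * I) * t)‖ = 1 := by
    intro ω t
    have : (ω : ℂ) * I * t = ((ω * t : ℝ) : ℂ) * I := by push_cast; ring
    rw [this, Complex.norm_exp_ofReal_mul_I]
  have hbd : ∀ n t, ‖F n t‖ ≤ D * (m : ℝ) ^ (1 / 2 + η) * G e n := by
    intro n t
    rcases Nat.eq_zero_or_pos n with hn | hn
    · subst hn
      rw [hF0, norm_zero]
      exact mul_nonneg (by positivity) (G_nonneg _ _)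
    · rw [hFn n hn t, norm_mul, hexp, mul_one]
      exact hcoef n hn
  have hcont : ∀ n, Continuous (F n) := by
    intro n
    rcases Nat.eq_zero_or_pos n with hn | hn
    · subst hn
      have : F 0 = fun _ => 0 := funext hF0
      rw [this]
      exact continuous_const
    · have : F n = fun t : ℝ =>
          (T n * ((((n : ℝ) ^ (-(1 + η)) * (m : ℝ) ^ (1 / 2 + η) : ℝ)) : ℂ)) *
          Complex.exp ((((Real.log m - Real.log n : ℝ) : ℂ) * I) * t) := funext (hFn n hn)
      rw [this]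
      fun_prop
  have hsum : ∀ t : ℝ, HasSum (fun n => F n t) ((∏ j, riemannZeta (1 + η + I * (t + α j))) *
      (m : ℂ) ^ (1 / 2 + η + I * t : ℂ)) := by
    intro t
    have h1 := tau_hasSum k α (1 + η + I * t : ℂ) (by simp; exact hη)
    have h2 : ZP α (1 + η + I * t : ℂ) = ∏ j, riemannZeta (1 + η + I * (t + α j)) := by
      unfold ZP
      refine Finset.prod_congr rfl fun j _ => ?_
      congr 1; ring
    rw [← h2]
    exact h1.mul_right _
  have hint : HasSum (fun n => ∫ t in a..b, F n t)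
      (∫ t in a..b, (∏ j, riemannZeta (1 + η + I * (t + α j))) *
        (m : ℂ) ^ (1 / 2 + η + I * t : ℂ)) := by
    refine intervalIntegral.hasSum_integral_of_dominated_convergence
      (fun n _ => D * (m : ℝ) ^ (1 / 2 + η) * G e n)
      (fun n => (hcont n).aestronglyMeasurable) ?_ ?_ ?_ ?_
    · intro n
      exact Eventually.of_forall fun t _ => hbd n t
    · exact Eventually.of_forall fun t _ => (G_summable he0).mul_left _
    · exact intervalIntegrable_const
    · exact Eventually.of_forall fun t _ => hsum t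
  have hmain : ∫ t in a..b, F m t = (b - a) * (T m * (m : ℂ) ^ (-(1 / 2) : ℂ)) := by
    have h1 : ∀ t : ℝ, F m t = T m * (m : ℂ) ^ (-(1 / 2) : ℂ) := by
      intro t
      rw [hFn m hm t, sub_self, Complex.ofReal_zero, zero_mul, zero_mul, Complex.exp_zero, mul_one,
        cp hm, ← Real.rpow_add hm0, Real.rpow_def_of_pos hm0, Complex.ofReal_exp]
      congr 2
      push_cast
      ring
    simp only [h1]
    rw [intervalIntegral.integral_const, Complex.real_smul]
    push_cast
    ring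
  rw [← hmain]
  have hdiff := hint.sub (hasSum_ite_eq m (∫ t in a..b, F m t))
  obtain ⟨S, hS, hmaj⟩ := maj he0 m
  rw [← hdiff.tsum_eq]
  have hfin := tsum_of_norm_bounded (hmaj.mul_left (2 * D * (m : ℝ) ^ (1 / 2 + η) *
    (m : ℝ) ^ (2 * e))) (f := fun n => (∫ t in a..b, F n t) -
      if n = m then (∫ t in a..b, F m t) else 0) (by
    intro n
    have hR : 0 ≤ G e n + G e (m - n) + G e (n - m) :=
      add_nonneg (add_nonneg (G_nonneg _ _) (G_nonneg _ _)) (G_nonneg _ _)
    by_cases hnm : n = m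
    · rw [if_pos hnm, hnm, sub_self, norm_zero]
      rw [hnm] at hR
      positivity
    · rw [if_neg hnm, sub_zero]
      rcases Nat.eq_zero_or_pos n with hn | hn
      · subst hn
        simp only [hF0, intervalIntegral.integral_zero, norm_zero]
        positivity
      · have hω : Real.log m - Real.log n ≠ 0 := by
          intro h0
          have hn0 : (0 : ℝ) < n := by exact_mod_cast hn
          have := Real.log_injOn_pos (Set.mem_Ioi.2 hm0) (Set.mem_Ioi.2 hn0) (sub_eq_zero.1 h0)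
          exact hnm (by exact_mod_cast this.symm)
        have h1 : ∫ t in a..b, F n t =
            (T n * ((((n : ℝ) ^ (-(1 + η)) * (m : ℝ) ^ (1 / 2 + η) : ℝ)) : ℂ)) *
            ∫ t in a..b, Complex.exp ((((Real.log m - Real.log n : ℝ) : ℂ) * I) * t) := by
          rw [← intervalIntegral.integral_const_mul]
          exact intervalIntegral.integral_congr fun t _ => hFn n hn t
        rw [h1, norm_mul]
        have h2 := osc hω a b
        have h3 := elem he0 hm hn (Ne.symm hnm)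
        calc _ ≤ (D * (m : ℝ) ^ (1 / 2 + η) * G e n) * (2 / |Real.log m - Real.log n|) :=
              mul_le_mul (hcoef n hn) h2 (norm_nonneg _)
                (mul_nonneg (by positivity) (G_nonneg _ _))
          _ = 2 * D * (m : ℝ) ^ (1 / 2 + η) * (G e n * (1 / |Real.log m - Real.log n|)) := by
              ring
          _ ≤ 2 * D * (m : ℝ) ^ (1 / 2 + η) * ((m : ℝ) ^ (2 * e) *
              (G e n + G e (m - n) + G e (n - m))) :=
              mul_le_mul_of_nonneg_left h3 (by positivity)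
          _ = _ := by ring)
  refine hfin.trans ?_
  have hp : (m : ℝ) ^ (1 / 2 + η) * (m : ℝ) ^ (2 * e) = (m : ℝ) ^ (1 / 2 + 2 * η) := by
    rw [← Real.rpow_add hm0]
    congr 1
    rw [he]; ring
  calc 2 * D * (m : ℝ) ^ (1 / 2 + η) * (m : ℝ) ^ (2 * e) * S
      = (m : ℝ) ^ (1 / 2 + 2 * η) * (2 * D * S) := by rw [← hp]; ring
    _ ≤ (m : ℝ) ^ (1 / 2 + 2 * η) * (2 * D * (3 * Z) + 1) := by
        refine mul_le_mul_of_nonneg_left ?_ (by positivity)
        have := mul_le_mul_of_nonneg_left hS (by positivity : 0 ≤ 2 * D)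
        linarith
    _ = (2 * D * (3 * Z) + 1) * (m : ℝ) ^ (1 / 2 + 2 * η) := by ring

end

end Pool.Agent.TH445.GF
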